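import Mathlib
import Pool.Agent.Helper2_TM.StmtODE

set_option autoImplicit false

/-! # Continuous dependence for a family of solutions (Gronwall + first exit) -/

namespace Pool.Agent.HM.H87

open Set Metric

/-- local estimate near one solution -/
theorem contDep_local (G : (Fin 8 → ℝ) → (Fin 8 → ℝ)) (Ω : Set (Fin 8 → ℝ)) (hΩ : IsOpen Ω)
    (hG : ContDiffOn ℝ 1 G Ω) (S : ℝ) (γ : ℝ → Fin 8 → ℝ)
    (hγ : ∀ t ∈ Icc 0 S, γ t ∈ Ω ∧ HasDerivWithinAt γ (G (γ t)) (Icc 0 S) t) :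
    ∃ L > (0 : ℝ), ∃ δ > (0 : ℝ), ∀ x : ℝ → Fin 8 → ℝ,
      (∀ t ∈ Icc 0 S, x t ∈ Ω ∧ HasDerivWithinAt x (G (x t)) (Icc 0 S) t) →
      ∀ η > (0 : ℝ), η * Real.exp (L * S) ≤ δ → ‖x 0 - γ 0‖ ≤ η →
        ∀ t ∈ Icc 0 S, ‖x t - γ t‖ ≤ η * Real.exp (L * t) := by
  have hγc : ContinuousOn γ (Icc 0 S) := fun t ht => (hγ t ht).2.continuousWithinAt
  have hΓ : IsCompact (γ '' Icc 0 S) := isCompact_Icc.image_of_continuousOn hγc
  have hΓΩ : γ '' Icc 0 S ⊆ Ω := by
    rintro _ ⟨t, ht, rfl⟩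
    exact (hγ t ht).1
  obtain ⟨δ, hδ, hδΩ⟩ := hΓ.exists_cthickening_subset_open hΩ hΓΩ
  have hT : IsCompact (cthickening δ (γ '' Icc 0 S)) := hΓ.cthickening
  have hfd : ContinuousOn (fderiv ℝ G) Ω := hG.continuousOn_fderiv_of_isOpen hΩ le_rfl
  obtain ⟨L0, hL0⟩ := hT.exists_bound_of_continuousOn (hfd.mono hδΩ)
  set L : ℝ := max L0 0 + 1 with hL
  have hLpos : 0 < L := by
    have : 0 ≤ max L0 0 := le_max_right _ _
    linarith
  refine ⟨L, hLpos, δ, hδ, ?_⟩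
  intro x hx η hη hηδ h0 t ht
  have hxc : ContinuousOn x (Icc 0 S) := fun t ht => (hx t ht).2.continuousWithinAt
  have key := image_norm_le_of_norm_deriv_right_lt_deriv_boundary (a := 0) (b := S)
    (f := fun t => x t - γ t) (f' := fun t => G (x t) - G (γ t))
    (B := fun t => η * Real.exp (L * t)) (B' := fun t => η * (Real.exp (L * t) * L))
    (hxc.sub hγc) ?_ ?_ ?_ ?_ ht
  · exact key
  · intro s hs
    have hs' : s ∈ Icc 0 S := Ico_subset_Icc_self hs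
    have h1 : HasDerivWithinAt (fun t => x t - γ t) (G (x s) - G (γ s)) (Icc 0 S) s :=
      (hx s hs').2.sub (hγ s hs').2
    exact h1.mono_of_mem_nhdsWithin (Icc_mem_nhdsGE_of_mem hs)
  · simpa using h0
  · intro s
    have h1 : HasDerivAt (fun t : ℝ => L * t) L s := by
      simpa using (hasDerivAt_id s).const_mul L
    exact (h1.exp).const_mul η
  · intro s hs hsB
    have hs' : s ∈ Icc 0 S := Ico_subset_Icc_self hs
    have hexp : Real.exp (L * s) ≤ Real.exp (L * S) := by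
      apply Real.exp_le_exp.mpr
      exact mul_le_mul_of_nonneg_left hs'.2 hLpos.le
    have hle : ‖x s - γ s‖ ≤ δ := by
      have : ‖x s - γ s‖ = η * Real.exp (L * s) := hsB
      rw [this]
      exact (mul_le_mul_of_nonneg_left hexp hη.le).trans hηδ
    have hball : closedBall (γ s) δ ⊆ cthickening δ (γ '' Icc 0 S) :=
      closedBall_subset_cthickening (mem_image_of_mem γ hs') δ
    have hmv : ‖G (x s) - G (γ s)‖ ≤ max L0 0 * ‖x s - γ s‖ := by
      apply (convex_closedBall (γ s) δ).norm_image_sub_le_of_norm_fderiv_le (𝕜 := ℝ)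
      · intro y hy
        have hyΩ : y ∈ Ω := hδΩ (hball hy)
        exact ((hG.differentiableOn one_ne_zero) y hyΩ).differentiableAt (hΩ.mem_nhds hyΩ)
      · intro y hy
        exact (hL0 y (hball hy)).trans (le_max_left _ _)
      · exact mem_closedBall_self hδ.le
      · rw [mem_closedBall, dist_eq_norm]; exact hle
    have hsB' : ‖x s - γ s‖ = η * Real.exp (L * s) := hsB
    show ‖G (x s) - G (γ s)‖ < η * (Real.exp (L * s) * L)
    have hpos : 0 < η * Real.exp (L * s) := by positivity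
    calc ‖G (x s) - G (γ s)‖ ≤ max L0 0 * (η * Real.exp (L * s)) := by rw [← hsB']; exact hmv
      _ < L * (η * Real.exp (L * s)) := by
          apply mul_lt_mul_of_pos_right _ hpos
          rw [hL]; linarith
      _ = η * (Real.exp (L * s) * L) := by ring

theorem contDep : Pool.Agent.H2TM.ContDepStmt := by
  intro Ξ _ K G Ω hΩ hG S hS X hX hX0
  rintro ⟨ξ0, t0⟩ ⟨hξ0, ht0⟩
  obtain ⟨L, hL, δ, hδ, hloc⟩ := contDep_local G Ω hΩ hG S (X ξ0) (hX ξ0 hξ0)
  rw [Metric.continuousWithinAt_iff']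
  intro ε hε
  -- choose η
  set E : ℝ := Real.exp (L * S) with hE
  have hEpos : 0 < E := Real.exp_pos _
  set η : ℝ := min δ (ε / 2) / E with hη
  have hηpos : 0 < η := by
    have : 0 < min δ (ε / 2) := lt_min hδ (by linarith)
    positivity
  have hηE : η * E = min δ (ε / 2) := by rw [hη]; field_simp
  have h1 : ∀ᶠ ξ in nhdsWithin ξ0 K, dist (X ξ 0) (X ξ0 0) < η :=
    (Metric.continuousWithinAt_iff'.mp (hX0 ξ0 hξ0)) η hηpos
  have hc : ContinuousWithinAt (X ξ0) (Icc 0 S) t0 := ((hX ξ0 hξ0) t0 ht0).2.continuousWithinAt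
  have h2 : ∀ᶠ t in nhdsWithin t0 (Icc 0 S), dist (X ξ0 t) (X ξ0 t0) < ε / 2 :=
    (Metric.continuousWithinAt_iff'.mp hc) (ε / 2) (by linarith)
  have h3 : ∀ᶠ ξ in nhdsWithin ξ0 K, ξ ∈ K := self_mem_nhdsWithin
  have h4 : ∀ᶠ t in nhdsWithin t0 (Icc 0 S), t ∈ Icc 0 S := self_mem_nhdsWithin
  rw [nhdsWithin_prod_eq]
  filter_upwards [(h1.and h3).prod_mk (h2.and h4)] with p hp
  obtain ⟨⟨hp1, hp3⟩, hp2, hp4⟩ := hp
  have hb := hloc (X p.1) (hX p.1 hp3) η hηpos (by rw [hηE]; exact min_le_left _ _)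
    (by rw [← dist_eq_norm]; exact hp1.le) p.2 hp4
  have hexp : Real.exp (L * p.2) ≤ E := by
    apply Real.exp_le_exp.mpr
    exact mul_le_mul_of_nonneg_left hp4.2 hL.le
  have hb2 : ‖X p.1 p.2 - X ξ0 p.2‖ ≤ ε / 2 := by
    calc ‖X p.1 p.2 - X ξ0 p.2‖ ≤ η * Real.exp (L * p.2) := hb
      _ ≤ η * E := mul_le_mul_of_nonneg_left hexp hηpos.le
      _ = min δ (ε / 2) := hηE
      _ ≤ ε / 2 := min_le_right _ _
  calc dist (X p.1 p.2) (X ξ0 t0) ≤ dist (X p.1 p.2) (X ξ0 p.2) + dist (X ξ0 p.2) (X ξ0 t0) :=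
        dist_triangle _ _ _
    _ < ε / 2 + ε / 2 := by
        apply add_lt_add_of_le_of_lt _ hp2
        rw [dist_eq_norm]; exact hb2
    _ = ε := by ring

end Pool.Agent.HM.H87
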