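import Pool.Agent.Helper87_HM.Cons

/-!
# Arcs in Jacobi coordinates: reversal, rotation, conservation laws
-/

namespace Pool.Agent.HM.H87

open Complex Set Topology Pool.Agent.HM

noncomputable section

theorem rotJ_eq (u : ℂ) (X : JS) : rotJ u X = u • X := rfl

theorem FF_rot (u z : ℂ) (hu : ‖u‖ = 1) : FF (u * z) = u * FF z := by
  unfold FF
  rw [norm_mul, hu, one_mul]
  ring

theorem vA_rot (m : Fin 3 → ℝ) (u ρ lam : ℂ) : vA m (u * ρ) (u * lam) = u * vA m ρ lam := by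
  unfold vA; ring

theorem vB_rot (m : Fin 3 → ℝ) (u ρ lam : ℂ) : vB m (u * ρ) (u * lam) = u * vB m ρ lam := by
  unfold vB; ring

theorem JVF_rot (m : Fin 3 → ℝ) (u : ℂ) (hu : ‖u‖ = 1) (X : JS) :
    JVF m (rotJ u X) = rotJ u (JVF m X) := by
  unfold JVF rotJ
  simp only [vA_rot, vB_rot, FF_rot _ _ hu]
  refine Prod.ext rfl (Prod.ext rfl (Prod.ext ?_ ?_))
  · simp only; ring
  · simp only; ring

theorem Free_rot (m : Fin 3 → ℝ) (u : ℂ) (hu : ‖u‖ = 1) (X : JS) (h : Free m X) :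
    Free m (rotJ u X) := by
  have hu0 : u ≠ 0 := by
    rintro rfl
    simp at hu
  unfold Free rotJ at *
  simp only [vA_rot, vB_rot]
  exact ⟨mul_ne_zero hu0 h.1, mul_ne_zero hu0 h.2.1, mul_ne_zero hu0 h.2.2⟩

theorem arc_rot (m : Fin 3 → ℝ) (T : ℝ) (P : ℝ → JS) (u : ℂ) (hu : ‖u‖ = 1)
    (h : IsNArc m T P) : IsNArc m T fun τ => rotJ u (P τ) := by
  intro τ hτ
  obtain ⟨h1, h2⟩ := h τ hτ
  refine ⟨Free_rot m u hu _ h1, ?_⟩
  rw [JVF_rot m u hu]
  have h3 := h2.const_smul u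
  refine h3.congr_deriv ?_
  rw [rotJ_eq, smul_comm]

/-- components of a derivative -/
theorem comps {P : ℝ → JS} {D : JS} {S : Set ℝ} {t : ℝ} (h : HasDerivWithinAt P D S t) :
    HasDerivWithinAt (fun s => (P s).1) D.1 S t ∧
    HasDerivWithinAt (fun s => (P s).2.1) D.2.1 S t ∧
    HasDerivWithinAt (fun s => (P s).2.2.1) D.2.2.1 S t ∧
    HasDerivWithinAt (fun s => (P s).2.2.2) D.2.2.2 S t := by
  have h1 := (ContinuousLinearMap.fst ℝ ℂ (ℂ × ℂ × ℂ)).hasFDerivAt.comp_hasDerivWithinAt t h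
  have h2 := (ContinuousLinearMap.snd ℝ ℂ (ℂ × ℂ × ℂ)).hasFDerivAt.comp_hasDerivWithinAt t h
  have h3 := (ContinuousLinearMap.fst ℝ ℂ (ℂ × ℂ)).hasFDerivAt.comp_hasDerivWithinAt t h2
  have h4 := (ContinuousLinearMap.snd ℝ ℂ (ℂ × ℂ)).hasFDerivAt.comp_hasDerivWithinAt t h2
  have h5 := (ContinuousLinearMap.fst ℝ ℂ ℂ).hasFDerivAt.comp_hasDerivWithinAt t h4
  have h6 := (ContinuousLinearMap.snd ℝ ℂ ℂ).hasFDerivAt.comp_hasDerivWithinAt t h4
  exact ⟨h1, h3, h5, h6⟩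

theorem arc_rev (m : Fin 3 → ℝ) (T : ℝ) (P : ℝ → JS) (h : IsNArc m T P) :
    IsNArc m T fun τ => rev (P (1 - τ)) := by
  intro τ hτ
  have hτ' : (1 : ℝ) - τ ∈ Icc (0 : ℝ) 1 := ⟨by linarith [hτ.2], by linarith [hτ.1]⟩
  obtain ⟨h1, h2⟩ := h (1 - τ) hτ'
  refine ⟨h1, ?_⟩
  have hmap : MapsTo (fun s : ℝ => 1 - s) (Icc 0 1) (Icc 0 1) := by
    intro x hx
    exact ⟨by linarith [hx.2], by linarith [hx.1]⟩
  have hd : HasDerivWithinAt (fun s : ℝ => 1 - s) (-1) (Icc 0 1) τ :=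
    (hasDerivWithinAt_id τ _).const_sub 1
  have h3 := HasDerivWithinAt.scomp τ h2 hd hmap
  obtain ⟨c1, c2, c3, c4⟩ := comps h3
  have h4 := c1.prodMk (c2.prodMk (c3.neg.prodMk c4.neg))
  refine HasDerivWithinAt.congr_deriv (f := fun τ => rev (P (1 - τ))) h4 ?_
  unfold JVF rev
  refine Prod.ext ?_ (Prod.ext ?_ (Prod.ext ?_ ?_))
  · simp
  · simp
  · simp
  · simp

theorem FF_re (z : ℂ) : (FF z).re = z.re / ‖z‖ ^ 3 := by
  have := divc_re 1 z ‖z‖
  simpa [FF] using this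

theorem FF_im (z : ℂ) : (FF z).im = z.im / ‖z‖ ^ 3 := by
  have := divc_im 1 z ‖z‖
  simpa [FF] using this

theorem JE_deriv (m : Fin 3 → ℝ) (hm : ∀ i, 0 < m i) (T : ℝ) (P : ℝ → JS) (S : Set ℝ) (t : ℝ)
    (hf : Free m (P t)) (h : HasDerivWithinAt P (T • JVF m (P t)) S t) :
    HasDerivWithinAt (fun s => JE m (P s)) 0 S t := by
  obtain ⟨c1, c2, c3, c4⟩ := comps h
  have cA : HasDerivWithinAt (fun s => vA m (P s).1 (P s).2.1)
      ((T • JVF m (P t)).2.1 + (w1 m : ℂ) * (T • JVF m (P t)).1) S t := c2.add (c1.const_mul _)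
  have cB : HasDerivWithinAt (fun s => vB m (P s).1 (P s).2.1)
      ((T • JVF m (P t)).2.1 - (w0 m : ℂ) * (T • JVF m (P t)).1) S t := c2.sub (c1.const_mul _)
  have e1 := (hasDeriv_nsq c3).const_mul (k1 m / 2)
  have e2 := (hasDeriv_nsq c4).const_mul (k2 m / 2)
  have e3 := hasDeriv_ninv c1 hf.1 (m 0 * m 1)
  have e4 := hasDeriv_ninv cA hf.2.1 (m 0 * m 2)
  have e5 := hasDeriv_ninv cB hf.2.2 (m 1 * m 2)
  have e6 := (((e1.add e2).sub e3).sub e4).sub e5
  refine HasDerivWithinAt.congr_deriv (f := fun s => JE m (P s)) e6 ?_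
  have h0 := hm 0
  have h1 := hm 1
  have h2 := hm 2
  have a0 : 0 < m 0 + m 1 := by positivity
  have aM : 0 < mT m := by unfold mT; positivity
  have K1 : k1 m * (m 0 + m 1) = m 0 * m 1 := by unfold k1; field_simp
  have K2 : k1 m * m 2 = m 0 * m 2 * w1 m := by unfold k1 w1; field_simp
  have K3 : k1 m * m 2 = m 1 * m 2 * w0 m := by unfold k1 w0; field_simp
  have K4 : k2 m * (mT m / (m 0 + m 1)) = m 2 := by unfold k2 mT; field_simp
  have vAre : (vA m (P t).1 (P t).2.1).re = (P t).2.1.re + w1 m * (P t).1.re := by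
    simp [vA]
  have vAim : (vA m (P t).1 (P t).2.1).im = (P t).2.1.im + w1 m * (P t).1.im := by
    simp [vA]
  have vBre : (vB m (P t).1 (P t).2.1).re = (P t).2.1.re - w0 m * (P t).1.re := by
    simp [vB]
  have vBim : (vB m (P t).1 (P t).2.1).im = (P t).2.1.im - w0 m * (P t).1.im := by
    simp [vB]
  simp only [JVF, Prod.smul_fst, Prod.smul_snd, Complex.add_re, Complex.add_im, Complex.sub_re,
    Complex.sub_im, Complex.smul_re, Complex.smul_im, Complex.re_ofReal_mul, Complex.im_ofReal_mul,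
    Complex.neg_re, Complex.neg_im, neg_mul, FF_re, FF_im, smul_eq_mul]
  set RA := ‖vA m (P t).1 (P t).2.1‖ ^ 3 with hRA
  set RB := ‖vB m (P t).1 (P t).2.1‖ ^ 3 with hRB
  set RR := ‖(P t).1‖ ^ 3 with hRR
  have pRA : 0 < RA := by
    have := norm_pos_iff.2 hf.2.1
    positivity
  have pRB : 0 < RB := by
    have := norm_pos_iff.2 hf.2.2
    positivity
  have pRR : 0 < RR := by
    have := norm_pos_iff.2 hf.1
    positivity
  simp only [vAre, vAim, vBre, vBim]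
  generalize (P t).1.re = x1
  generalize (P t).1.im = y1
  generalize (P t).2.1.re = x2
  generalize (P t).2.1.im = y2
  generalize (P t).2.2.1.re = x3
  generalize (P t).2.2.1.im = y3
  generalize (P t).2.2.2.re = x4
  generalize (P t).2.2.2.im = y4
  have ia : ∀ a : ℝ, a / RA = a * RA⁻¹ := fun a => div_eq_mul_inv _ _
  have ib : ∀ a : ℝ, a / RB = a * RB⁻¹ := fun a => div_eq_mul_inv _ _
  have ir : ∀ a : ℝ, a / RR = a * RR⁻¹ := fun a => div_eq_mul_inv _ _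
  simp only [ia, ib, ir]
  generalize RA⁻¹ = A
  generalize RB⁻¹ = B
  generalize RR⁻¹ = R
  generalize hq : mT m / (m 0 + m 1) = Q at *
  linear_combination (-T * R * (x1 * x3 + y1 * y3)) * K1 +
    (-T * A * (x3 * (x2 + w1 m * x1) + y3 * (y2 + w1 m * y1))) * K2 +
    (T * B * (x3 * (x2 - w0 m * x1) + y3 * (y2 - w0 m * y1))) * K3 +
    (-T * (m 0 * A * (x4 * (x2 + w1 m * x1) + y4 * (y2 + w1 m * y1)) +
      m 1 * B * (x4 * (x2 - w0 m * x1) + y4 * (y2 - w0 m * y1)))) * K4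

theorem JMu_deriv (m : Fin 3 → ℝ) (hm : ∀ i, 0 < m i) (T : ℝ) (P : ℝ → JS) (S : Set ℝ) (t : ℝ)
    (h : HasDerivWithinAt P (T • JVF m (P t)) S t) :
    HasDerivWithinAt (fun s => JMu m (P s)) 0 S t := by
  obtain ⟨c1, c2, c3, c4⟩ := comps h
  have hre : ∀ {z : ℝ → ℂ} {w : ℂ}, HasDerivWithinAt z w S t →
      HasDerivWithinAt (fun s => (z s).re) w.re S t :=
    fun {z w} hz => Complex.reCLM.hasFDerivAt.comp_hasDerivWithinAt t hz
  have him : ∀ {z : ℝ → ℂ} {w : ℂ}, HasDerivWithinAt z w S t →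
      HasDerivWithinAt (fun s => (z s).im) w.im S t :=
    fun {z w} hz => Complex.imCLM.hasFDerivAt.comp_hasDerivWithinAt t hz
  have e1 := (((hre c1).mul (him c3)).sub ((him c1).mul (hre c3))).const_mul (k1 m)
  have e2 := (((hre c2).mul (him c4)).sub ((him c2).mul (hre c4))).const_mul (k2 m)
  have e3 := e1.add e2
  have e : (fun s => JMu m (P s)) = fun s =>
      k1 m * ((P s).1.re * (P s).2.2.1.im - (P s).1.im * (P s).2.2.1.re) +
      k2 m * ((P s).2.1.re * (P s).2.2.2.im - (P s).2.1.im * (P s).2.2.2.re) := by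
    ext s
    simp only [JMu, cr, Complex.mul_im, Complex.conj_re, Complex.conj_im]
    ring
  rw [e]
  refine HasDerivWithinAt.congr_deriv e3 ?_
  have h0 := hm 0
  have h1 := hm 1
  have h2 := hm 2
  have a0 : 0 < m 0 + m 1 := by positivity
  have aM : 0 < mT m := by unfold mT; positivity
  have K2 : k1 m * m 2 = m 0 * m 2 * w1 m := by unfold k1 w1; field_simp
  have K3 : k1 m * m 2 = m 1 * m 2 * w0 m := by unfold k1 w0; field_simp
  have K4 : k2 m * (mT m / (m 0 + m 1)) = m 2 := by unfold k2 mT; field_simp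
  have vAre : (vA m (P t).1 (P t).2.1).re = (P t).2.1.re + w1 m * (P t).1.re := by
    simp [vA]
  have vAim : (vA m (P t).1 (P t).2.1).im = (P t).2.1.im + w1 m * (P t).1.im := by
    simp [vA]
  have vBre : (vB m (P t).1 (P t).2.1).re = (P t).2.1.re - w0 m * (P t).1.re := by
    simp [vB]
  have vBim : (vB m (P t).1 (P t).2.1).im = (P t).2.1.im - w0 m * (P t).1.im := by
    simp [vB]
  simp only [JVF, Prod.smul_fst, Prod.smul_snd, Complex.add_re, Complex.add_im, Complex.sub_re,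
    Complex.sub_im, Complex.smul_re, Complex.smul_im, Complex.re_ofReal_mul, Complex.im_ofReal_mul,
    Complex.neg_re, Complex.neg_im, neg_mul, FF_re, FF_im, smul_eq_mul]
  set RA := ‖vA m (P t).1 (P t).2.1‖ ^ 3 with hRA
  set RB := ‖vB m (P t).1 (P t).2.1‖ ^ 3 with hRB
  set RR := ‖(P t).1‖ ^ 3 with hRR
  simp only [vAre, vAim, vBre, vBim]
  generalize (P t).1.re = x1
  generalize (P t).1.im = y1
  generalize (P t).2.1.re = x2
  generalize (P t).2.1.im = y2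
  generalize (P t).2.2.1.re = x3
  generalize (P t).2.2.1.im = y3
  generalize (P t).2.2.2.re = x4
  generalize (P t).2.2.2.im = y4
  have ia : ∀ a : ℝ, a / RA = a * RA⁻¹ := fun a => div_eq_mul_inv _ _
  have ib : ∀ a : ℝ, a / RB = a * RB⁻¹ := fun a => div_eq_mul_inv _ _
  have ir : ∀ a : ℝ, a / RR = a * RR⁻¹ := fun a => div_eq_mul_inv _ _
  simp only [ia, ib, ir]
  generalize RA⁻¹ = A
  generalize RB⁻¹ = B
  generalize RR⁻¹ = R
  generalize hq : mT m / (m 0 + m 1) = Q at *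
  linear_combination (-T * A * (x1 * y2 - y1 * x2)) * K2 +
    (T * B * (x1 * y2 - y1 * x2)) * K3 +
    (T * (m 0 * A * w1 m - m 1 * B * w0 m) * (x1 * y2 - y1 * x2)) * K4

theorem const_of_deriv {f : ℝ → ℝ} (h : ∀ τ ∈ Icc (0 : ℝ) 1, HasDerivWithinAt f 0 (Icc 0 1) τ) :
    ∀ τ ∈ Icc (0 : ℝ) 1, f τ = f 0 := by
  refine constant_of_has_deriv_right_zero (fun τ hτ => (h τ hτ).continuousWithinAt) ?_
  intro τ hτ
  have h1 := h τ ⟨hτ.1, hτ.2.le⟩
  refine h1.mono_of_mem_nhdsWithin ?_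
  rw [mem_nhdsWithin]
  exact ⟨Iio 1, isOpen_Iio, hτ.2, fun x hx => ⟨hτ.1.trans hx.2, (hx.1 : x < 1).le⟩⟩

theorem arc : ArcStmt := by
  refine ⟨arc_rev, fun m T P u hu h => arc_rot m T P u hu h, ?_⟩
  intro m hm T P h hL τ hτ
  obtain ⟨_, h2, h3⟩ := hL
  refine ⟨(h τ hτ).1, ?_, ?_⟩
  · rw [← h2]
    exact const_of_deriv (f := fun s => JE m (P s))
      (fun s hs => JE_deriv m hm T P _ s (h s hs).1 (h s hs).2) τ hτ
  · rw [← h3]
    exact const_of_deriv (f := fun s => JMu m (P s))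
      (fun s hs => JMu_deriv m hm T P _ s (h s hs).2) τ hτ

end

end Pool.Agent.HM.H87
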