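import Mathlib
import Pool.Agent.Helper35_TB.Stmt2

set_option autoImplicit false

/-! # FAR: first real inequality (bounds for the torque) -/

namespace Pool.Agent.HM.H87

open Pool.Agent.HM.FAR

private lemma aux_w1 (m l : ℝ) (hm : m ≤ 2 + 1 / 10 ^ 5) (hmpos : 0 < m) (hl : 0.0884 ≤ l) :
    0.0441 ≤ l / m := by
  rw [le_div_iff₀ hmpos]; linarith

private lemma aux_w2 (m l : ℝ) (hm : 2 - 1 / 10 ^ 5 ≤ m) (hmpos : 0 < m) (hl : l ≤ 0.1006) :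
    l / m ≤ 0.05031 := by
  rw [div_le_iff₀ hmpos]; linarith

private lemma aux_q1 (m l : ℝ) (hm : m ≤ 2 + 1 / 10 ^ 5) (hmpos : 0 < m) (hl : 0.0884 ≤ l) :
    0.0039 ≤ l ^ 2 / m := by
  rw [le_div_iff₀ hmpos]
  have : (0.0884 : ℝ) ^ 2 ≤ l ^ 2 := by gcongr
  linarith

private lemma aux_q2 (m l : ℝ) (hm : 2 - 1 / 10 ^ 5 ≤ m) (hmpos : 0 < m) (hl0 : 0.0884 ≤ l)
    (hl : l ≤ 0.1006) : l ^ 2 / m ≤ 0.00507 := by
  rw [div_le_iff₀ hmpos]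
  have h0 : 0 ≤ l := by linarith
  have : l ^ 2 ≤ (0.1006 : ℝ) ^ 2 := by gcongr
  linarith

private lemma aux_kappa (x κ : ℝ) (hx1 : (0.0790 : ℝ) ^ 2 ≤ x) (hx2 : x ≤ (0.1173 : ℝ) ^ 2)
    (hκ0 : 0 < κ) (hκ : κ ^ 2 = x * (1 - x)) : 0.0787 ≤ κ ∧ κ ≤ 0.1165 := by
  constructor
  · by_contra hcon
    push Not at hcon
    have : κ ^ 2 < (0.0787 : ℝ) ^ 2 := by gcongr
    nlinarith
  · by_contra hcon
    push Not at hcon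
    have : (0.1165 : ℝ) ^ 2 < κ ^ 2 := by gcongr
    nlinarith

private lemma aux_Xl (R r s κ w δ X : ℝ) (hr1 : r ≤ 1.0006)
    (hs : s ^ 2 ≤ 4.00002 * r - 3.996 * r ^ 2 - 0.0078)
    (hR2u : R ^ 2 ≤ r ^ 2 - 0.0078 * r + 0.0000258)
    (hX : X = -κ * (R ^ 2 - (w * s) ^ 2) + w * δ * (R * s))
    (hκ0 : 0 < κ) (hκ2 : κ ≤ 0.1165) (hwδ0 : 0 ≤ w * δ) (hwδ : w * δ ≤ 0.04969) :
    -0.1256 ≤ X := by
  have h1 : -(0.205 * R ^ 2 + 1.2196 * s ^ 2) ≤ R * s := by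
    nlinarith [sq_nonneg (0.41 * R + s), sq_nonneg s]
  have h3 : w * δ * (-(0.205 * R ^ 2 + 1.2196 * s ^ 2)) ≤ w * δ * (R * s) :=
    mul_le_mul_of_nonneg_left h1 hwδ0
  have h4 : w * δ * (0.205 * R ^ 2 + 1.2196 * s ^ 2)
      ≤ 0.04969 * (0.205 * R ^ 2 + 1.2196 * s ^ 2) :=
    mul_le_mul_of_nonneg_right hwδ (by positivity)
  have h2 : -(0.04969 * (0.205 * R ^ 2 + 1.2196 * s ^ 2)) ≤ w * δ * (R * s) := by linarith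
  have h5' : 0 ≤ κ * (w * s) ^ 2 := by positivity
  have h6 : κ * R ^ 2 ≤ 0.1165 * R ^ 2 := mul_le_mul_of_nonneg_right hκ2 (sq_nonneg R)
  have h7 : -(0.1265 + 0.00021) * R ^ 2 - 0.06061 * s ^ 2 ≤ X := by
    rw [hX]; linarith [sq_nonneg R, sq_nonneg s]
  have h8 : 0 ≤ (1.0006 - r) ^ 2 := sq_nonneg _
  linarith

private lemma aux_Xu (R r s κ w δ X : ℝ) (hr0 : 0 < r)
    (hs : s ^ 2 ≤ 4.00002 * r - 3.996 * r ^ 2 - 0.0078)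
    (hR2l : r ^ 2 - 0.01014 * r ≤ R ^ 2)
    (hX : X = -κ * (R ^ 2 - (w * s) ^ 2) + w * δ * (R * s))
    (hκ0 : 0 < κ) (hκ1 : 0.0787 ≤ κ) (hκ2 : κ ≤ 0.1165) (hwδ0 : 0 ≤ w * δ)
    (hwδ : w * δ ≤ 0.04969) (hw2sq : w ^ 2 ≤ 0.002532) :
    X ≤ 0.0075 := by
  have h1 : R * s ≤ 1.3 * R ^ 2 + 0.1924 * s ^ 2 := by
    nlinarith [sq_nonneg (2.6 * R - s), sq_nonneg s]
  have h3 : w * δ * (R * s) ≤ w * δ * (1.3 * R ^ 2 + 0.1924 * s ^ 2) :=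
    mul_le_mul_of_nonneg_left h1 hwδ0
  have h4 : w * δ * (1.3 * R ^ 2 + 0.1924 * s ^ 2)
      ≤ 0.04969 * (1.3 * R ^ 2 + 0.1924 * s ^ 2) :=
    mul_le_mul_of_nonneg_right hwδ (by positivity)
  have h6 : 0.0787 * R ^ 2 ≤ κ * R ^ 2 := mul_le_mul_of_nonneg_right hκ1 (sq_nonneg R)
  have h7 : κ * (w ^ 2 * s ^ 2) ≤ 0.1165 * (0.002532 * s ^ 2) := by
    apply mul_le_mul hκ2 _ (by positivity) (by norm_num)
    exact mul_le_mul_of_nonneg_right hw2sq (sq_nonneg s)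
  have h8 : κ * (w * s) ^ 2 = κ * (w ^ 2 * s ^ 2) := by ring
  have h9 : X ≤ -0.0141 * R ^ 2 + 0.00986 * s ^ 2 := by
    rw [hX]; linarith [sq_nonneg R, sq_nonneg s]
  have h10 : 0 ≤ (0.37 - r) ^ 2 := sq_nonneg _
  linarith

private lemma aux_R (R r q : ℝ) (hR : R = r - q) (hq1 : 0.0039 ≤ q) (hq2 : q ≤ 0.00507)
    (hr0 : 0 < r) : R ^ 2 ≤ r ^ 2 - 0.0078 * r + 0.0000258 ∧ r ^ 2 - 0.01014 * r ≤ R ^ 2 := by
  have h1 : 0.0039 * r ≤ q * r := mul_le_mul_of_nonneg_right hq1 hr0.le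
  have h2 : q * r ≤ 0.00507 * r := mul_le_mul_of_nonneg_right hq2 hr0.le
  have h0 : 0 ≤ q := by linarith
  have h3 : q ^ 2 ≤ (0.00507 : ℝ) ^ 2 := by gcongr
  have h4 : R ^ 2 = r ^ 2 - 2 * (q * r) + q ^ 2 := by rw [hR]; ring
  constructor
  · rw [h4]; linarith
  · rw [h4]; linarith [sq_nonneg q]

private lemma aux_B (R w s r C D B : ℝ) (hCD : C ^ 2 + D ^ 2 = 1) (hB : B = -R * D + w * s * C)
    (hw2sq : w ^ 2 ≤ 0.002532) (hr0 : 0 < r) (hr1 : r ≤ 1.0006)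
    (hs : s ^ 2 ≤ 4.00002 * r - 3.996 * r ^ 2 - 0.0078)
    (hR2u : R ^ 2 ≤ r ^ 2 - 0.0078 * r + 0.0000258) : B ^ 2 ≤ 1.1 := by
  have h1 : B ^ 2 ≤ R ^ 2 + (w * s) ^ 2 := by
    have : R ^ 2 + (w * s) ^ 2 - B ^ 2 = (R * C + w * s * D) ^ 2 := by
      rw [hB]
      linear_combination (-R ^ 2 - w ^ 2 * s ^ 2) * hCD
    linarith [sq_nonneg (R * C + w * s * D)]
  have h2 : (w * s) ^ 2 ≤ 0.002532 * s ^ 2 := by
    rw [mul_pow]; exact mul_le_mul_of_nonneg_right hw2sq (sq_nonneg s)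
  have h3 : r ^ 2 ≤ 1.0006 * r := by rw [sq]; exact mul_le_mul_of_nonneg_right hr1 hr0.le
  have h4 : 0 ≤ r ^ 2 := sq_nonneg r
  linarith

private lemma aux_Be (B e : ℝ) (he0 : 0 < e) (he1 : 0.98986 ≤ e ^ 2) (hB2 : B ^ 2 ≤ 1.1) :
    |B / e| ≤ 1.1 := by
  rw [← abs_of_pos (show (0:ℝ) < 1.1 by norm_num)]
  apply sq_le_sq.mp
  rw [div_pow, div_le_iff₀ (by positivity)]
  linarith

private lemma aux_Xe (X e : ℝ) (he0 : 0 < e) (he1 : 0.98986 ≤ e ^ 2) (h1 : -0.1256 ≤ X)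
    (h2 : X ≤ 0.0075) : -0.12689 ≤ X / e ^ 2 ∧ X / e ^ 2 ≤ 0.00758 := by
  have he2pos : 0 < e ^ 2 := by positivity
  constructor
  · rw [le_div_iff₀ he2pos]; linarith
  · rw [div_le_iff₀ he2pos]; linarith

private lemma aux_fin (K Y : ℝ) (h0 : 0 ≤ K) (h2 : K ≤ 3.0136) (hY1 : -0.1269011 ≤ Y)
    (hY2 : Y ≤ 0.0076) : -0.3855 ≤ K * Y ∧ K * Y ≤ 0.033 := by
  constructor
  · have : K * (-0.1269011) ≤ K * Y := mul_le_mul_of_nonneg_left hY1 h0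
    linarith
  · have : K * Y ≤ K * 0.0076 := mul_le_mul_of_nonneg_left hY2 h0
    linarith

private lemma aux_ck (c k1 : ℝ) (hc1 : -(1 / 10 ^ 5) ≤ c - 1) (hc2 : c - 1 ≤ 1 / 10 ^ 5)
    (hk11 : -0.0045 ≤ k1 - 1) (hk12 : k1 - 1 ≤ 0.0045) :
    0 ≤ 3 * c * k1 ∧ 3 * c * k1 ≤ 3.0136 := by
  have h1 : 0 ≤ c := by linarith
  have h2 : 0 ≤ k1 := by linarith
  have h3 : c * k1 ≤ (1 + 1 / 10 ^ 5) * 1.0045 :=
    mul_le_mul (by linarith) (by linarith) h2 (by norm_num)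
  constructor
  · positivity
  · have h4 : 3 * c * k1 = 3 * (c * k1) := by ring
    rw [h4]; linarith

theorem ineq1 : FAR.Ineq1Stmt := by
  intro m c l e r s C D k1 k2 d h
  obtain ⟨hm, hc, hl1, hl2, he0, he1, he2, hr0, hr1, hs, hCD, hneg, hC1, hC2, hk1, hk2, hd⟩ := h
  rw [abs_le] at hm hc hk1 hk2
  obtain ⟨hm1, hm2⟩ := hm
  obtain ⟨hc1, hc2⟩ := hc
  obtain ⟨hk11, hk12⟩ := hk1
  have hmpos : 0 < m := by linarith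
  have hm1' : 2 - 1 / 10 ^ 5 ≤ m := by linarith
  have hm2' : m ≤ 2 + 1 / 10 ^ 5 := by linarith
  -- w = l / m
  obtain ⟨w, hw⟩ : ∃ w, w = l / m := ⟨_, rfl⟩
  have hw1 : 0.0441 ≤ w := by rw [hw]; exact aux_w1 m l hm2' hmpos hl1
  have hw2 : w ≤ 0.05031 := by rw [hw]; exact aux_w2 m l hm1' hmpos hl2
  have hw0 : 0 ≤ w := by linarith
  obtain ⟨q, hq⟩ : ∃ q, q = l ^ 2 / m := ⟨_, rfl⟩
  have hq1 : 0.0039 ≤ q := by rw [hq]; exact aux_q1 m l hm2' hmpos hl1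
  have hq2 : q ≤ 0.00507 := by rw [hq]; exact aux_q2 m l hm1' hmpos hl1 hl2
  obtain ⟨R, hR⟩ : ∃ R, R = r - q := ⟨_, rfl⟩
  obtain ⟨κ, hκ⟩ : ∃ κ, κ = -(C * D) := ⟨_, rfl⟩
  obtain ⟨δ, hδ⟩ : ∃ δ, δ = D ^ 2 - C ^ 2 := ⟨_, rfl⟩
  have hC1' : (0.0790 : ℝ) ^ 2 ≤ C ^ 2 := by
    rw [← sq_abs C]; gcongr
  have hC2' : C ^ 2 ≤ (0.1173 : ℝ) ^ 2 := by
    rw [← sq_abs C]; gcongr
  have hκ0 : 0 < κ := by rw [hκ]; linarith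
  have hD : D ^ 2 = 1 - C ^ 2 := by linarith
  have hκsq : κ ^ 2 = C ^ 2 * (1 - C ^ 2) := by
    rw [hκ, ← hD]; ring
  obtain ⟨hκ1, hκ2⟩ := aux_kappa (C ^ 2) κ hC1' hC2' hκ0 hκsq
  have hδ1 : 0 ≤ δ := by rw [hδ, hD]; linarith
  have hδ2 : δ ≤ 0.98752 := by rw [hδ, hD]; linarith
  -- the product
  have hwδ0 : 0 ≤ w * δ := by positivity
  have hwδ : w * δ ≤ 0.04969 := by
    have : w * δ ≤ 0.05031 * 0.98752 := mul_le_mul hw2 hδ2 hδ1 (by norm_num)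
    linarith
  obtain ⟨hR2u, hR2l⟩ := aux_R R r q hR hq1 hq2 hr0
  have hw2sq : w ^ 2 ≤ 0.002532 := by
    have : w ^ 2 ≤ (0.05031 : ℝ) ^ 2 := by gcongr
    linarith
  obtain ⟨X, hX⟩ : ∃ X, X = -κ * (R ^ 2 - (w * s) ^ 2) + w * δ * (R * s) := ⟨_, rfl⟩
  have hXl : -0.1256 ≤ X := aux_Xl R r s κ w δ X hr1 hs hR2u hX hκ0 hκ2 hwδ0 hwδ
  have hXu : X ≤ 0.0075 := aux_Xu R r s κ w δ X hr0 hs hR2l hX hκ0 hκ1 hκ2 hwδ0 hwδ hw2sq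
  -- B
  obtain ⟨B, hB⟩ : ∃ B, B = -R * D + w * s * C := ⟨_, rfl⟩
  have hB2 : B ^ 2 ≤ 1.1 := aux_B R w s r C D B hCD hB hw2sq hr0 hr1 hs hR2u
  have hBe : |B / e| ≤ 1.1 := aux_Be B e he0 he1 hB2
  have hval : FLf m c l e r s C D k1 d = 3 * c * k1 * (X / e ^ 2 + d * (B / e)) := by
    unfold FLf Pf Qf
    have e1 : l * s / m = w * s := by rw [hw]; ring
    have e2 : r - l ^ 2 / m = R := by rw [hR, hq]
    rw [e1, e2]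
    have he' : e ≠ 0 := he0.ne'
    rw [hX, hB, hκ, hδ]
    field_simp
    ring
  obtain ⟨hXe1, hXe2⟩ := aux_Xe X e he0 he1 hXl hXu
  have hdB : |d * (B / e)| ≤ 0.000011 := by
    rw [abs_mul]
    calc |d| * |B / e| ≤ (1 / 10 ^ 5) * 1.1 :=
          mul_le_mul hd hBe (abs_nonneg _) (by norm_num)
      _ = 0.000011 := by norm_num
  rw [abs_le] at hdB
  obtain ⟨hdB1, hdB2⟩ := hdB
  obtain ⟨hck, hck2⟩ := aux_ck c k1 hc1 hc2 hk11 hk12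
  rw [hval]
  exact aux_fin _ _ hck hck2 (by linarith) (by linarith)

end Pool.Agent.HM.H87
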