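import Pool.Agent.Helper49_HM.Dyn

/-!
# Gluing of arcs to a solution periodic modulo rotations
-/

namespace Pool.Agent.HM.H87

open Complex Set Topology Pool.Agent.HM

noncomputable section

theorem rotF_eq (u : ℂ) (W : FS) : rotF u W = u • W := rfl

theorem rotF_mul (u v : ℂ) (W : FS) : rotF u (rotF v W) = rotF (u * v) W := by
  simp only [rotF_eq, mul_smul]

theorem rotF_one (W : FS) : rotF 1 W = W := by
  simp only [rotF_eq, one_smul]

/-- Newton's vector field commutes with rotations -/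
theorem acc_rot (m : Fin 3 → ℝ) (q : Conf) (u : ℂ) (hu : ‖u‖ = 1) (i : Fin 3) :
    acc m (fun i => u * q i) i = u * acc m q i := by
  unfold acc
  rw [Finset.mul_sum]
  refine Finset.sum_congr rfl fun j _ => ?_
  have h1 : u * q j - u * q i = u * (q j - q i) := by ring
  rw [h1, norm_mul, hu, one_mul]
  ring

theorem NVF_rot (m : Fin 3 → ℝ) (W : FS) (u : ℂ) (hu : ‖u‖ = 1) :
    NVF m (rotF u W) = rotF u (NVF m W) := by
  unfold NVF rotF
  ext i
  · rfl
  · exact acc_rot m W.1 u hu i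

theorem FreeF_rot (q : Conf) (u : ℂ) (hu : ‖u‖ = 1) (h : FreeF q) :
    FreeF (fun i => u * q i) := by
  intro i j hij hq
  have hu0 : u ≠ 0 := by
    rintro rfl
    simp at hu
  exact h i j hij (mul_left_cancel₀ hu0 hq)

/-- solution on a closed interval -/
def SolOn (m : Fin 3 → ℝ) (a b : ℝ) (Y : ℝ → FS) : Prop :=
  ∀ s ∈ Icc a b, FreeF (Y s).1 ∧ (∑ i, (m i : ℂ) * (Y s).1 i = 0) ∧
    HasDerivWithinAt Y (NVF m (Y s)) (Icc a b) s

theorem com_rot (m : Fin 3 → ℝ) (q : Conf) (u : ℂ) (h : ∑ i, (m i : ℂ) * q i = 0) :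
    ∑ i, (m i : ℂ) * (u * q i) = 0 := by
  have : ∑ i, (m i : ℂ) * (u * q i) = u * ∑ i, (m i : ℂ) * q i := by
    rw [Finset.mul_sum]
    exact Finset.sum_congr rfl fun i _ => by ring
  rw [this, h, mul_zero]

theorem SolOn.rot {m : Fin 3 → ℝ} {a b : ℝ} {Y : ℝ → FS} (h : SolOn m a b Y) {u : ℂ}
    (hu : ‖u‖ = 1) : SolOn m a b fun s => rotF u (Y s) := by
  intro s hs
  obtain ⟨h1, h2, h3⟩ := h s hs
  refine ⟨FreeF_rot _ u hu h1, com_rot m _ u h2, ?_⟩
  show HasDerivWithinAt (fun s => rotF u (Y s)) (NVF m (rotF u (Y s))) (Icc a b) s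
  rw [NVF_rot m (Y s) u hu]
  exact h3.const_smul u

theorem SolOn.shift {m : Fin 3 → ℝ} {a b : ℝ} {Y : ℝ → FS} (h : SolOn m a b Y) (c : ℝ) :
    SolOn m (a + c) (b + c) fun s => Y (s - c) := by
  intro s hs
  have hs' : s - c ∈ Icc a b := ⟨by linarith [hs.1], by linarith [hs.2]⟩
  obtain ⟨h1, h2, h3⟩ := h (s - c) hs'
  refine ⟨h1, h2, ?_⟩
  have hmap : MapsTo (fun s : ℝ => s - c) (Icc (a + c) (b + c)) (Icc a b) := by
    intro x hx
    exact ⟨by linarith [hx.1], by linarith [hx.2]⟩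
  have hd : HasDerivWithinAt (fun s : ℝ => s - c) 1 (Icc (a + c) (b + c)) s :=
    (hasDerivWithinAt_id s _).sub_const c
  have := HasDerivWithinAt.scomp s h3 hd hmap
  rw [one_smul] at this
  exact this

/-- the arc `W` of duration `T` as a solution on `[a, a + T]` -/
theorem arc_SolOn {m : Fin 3 → ℝ} {T : ℝ} (hT : 0 < T) {W : ℝ → FS} (h : IsFArc m T W)
    (hc : ∀ τ ∈ Icc (0 : ℝ) 1, ∑ i, (m i : ℂ) * (W τ).1 i = 0) (a : ℝ) :
    SolOn m a (a + T) fun s => W ((s - a) / T) := by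
  intro s hs
  have hmap : MapsTo (fun s : ℝ => (s - a) / T) (Icc a (a + T)) (Icc 0 1) := by
    intro x hx
    constructor
    · exact div_nonneg (by linarith [hx.1]) hT.le
    · rw [div_le_one hT]
      linarith [hx.2]
  have hs' := hmap hs
  obtain ⟨h1, h3⟩ := h _ hs'
  refine ⟨h1, hc _ hs', ?_⟩
  have hd : HasDerivWithinAt (fun s : ℝ => (s - a) / T) (1 / T) (Icc a (a + T)) s :=
    ((hasDerivWithinAt_id s _).sub_const a).div_const T
  have := HasDerivWithinAt.scomp s h3 hd hmap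
  have e : (1 / T) • T • NVF m (W ((s - a) / T)) = NVF m (W ((s - a) / T)) := by
    rw [smul_smul, one_div, inv_mul_cancel₀ hT.ne', one_smul]
  rw [e] at this
  exact this

theorem SolOn.congr {m : Fin 3 → ℝ} {a b : ℝ} {Y Z : ℝ → FS} (h : SolOn m a b Y)
    (e : ∀ s ∈ Icc a b, Z s = Y s) : SolOn m a b Z := by
  intro s hs
  obtain ⟨h1, h2, h3⟩ := h s hs
  rw [e s hs]
  exact ⟨h1, h2, h3.congr (fun x hx => e x hx) (e s hs)⟩

/-- gluing two solutions -/
theorem SolOn.union {m : Fin 3 → ℝ} {a b c : ℝ} (hab : a ≤ b) (hbc : b ≤ c) {Y : ℝ → FS}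
    (h1 : SolOn m a b Y) (h2 : SolOn m b c Y) : SolOn m a c Y := by
  intro s hs
  rcases le_or_gt s b with hsb | hsb
  · have hs1 : s ∈ Icc a b := ⟨hs.1, hsb⟩
    obtain ⟨e1, e2, e3⟩ := h1 s hs1
    refine ⟨e1, e2, ?_⟩
    rcases hsb.lt_or_eq with hlt | heq
    · refine e3.mono_of_mem_nhdsWithin ?_
      rw [mem_nhdsWithin]
      exact ⟨Iio b, isOpen_Iio, hlt, fun x hx => ⟨hx.2.1, (hx.1 : x < b).le⟩⟩
    · have hs2 : s ∈ Icc b c := ⟨heq.ge, hs.2⟩
      have := e3.union (h2 s hs2).2.2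
      rw [Icc_union_Icc_eq_Icc hab hbc] at this
      exact this
  · have hs2 : s ∈ Icc b c := ⟨hsb.le, hs.2⟩
    obtain ⟨e1, e2, e3⟩ := h2 s hs2
    refine ⟨e1, e2, ?_⟩
    refine e3.mono_of_mem_nhdsWithin ?_
    rw [mem_nhdsWithin]
    exact ⟨Ioi b, isOpen_Ioi, hsb, fun x hx => ⟨(hx.1 : b < x).le, hx.2.2⟩⟩

/-- gluing of finitely many arcs -/
theorem glue_fin (m : Fin 3 → ℝ) (J : ℕ) (T : ℕ → ℝ) (W : ℕ → ℝ → FS) (u : ℕ → ℂ)
    (hT : ∀ j < J, 0 < T j) (hW : ∀ j < J, IsFArc m (T j) (W j))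
    (hc : ∀ j < J, ∀ τ ∈ Icc (0 : ℝ) 1, ∑ i, (m i : ℂ) * (W j τ).1 i = 0)
    (hm : ∀ j, j + 1 < J → W (j + 1) 0 = rotF (u j) (W j 1))
    (t : ℕ → ℝ) (ht0 : t 0 = 0) (ht : ∀ j, t (j + 1) = t j + T j)
    (c : ℕ → ℂ) (hcc : ∀ j, c j = c (j + 1) * u j) (hcn : ∀ j < J, ‖c j‖ = 1) :
    ∀ n, n < J → ∃ Y : ℝ → FS, SolOn m 0 (t (n + 1)) Y ∧
      ∀ j ≤ n, ∀ s ∈ Icc (t j) (t (j + 1)), Y s = rotF (c j) (W j ((s - t j) / T j)) := by
  intro n
  induction n with
  | zero =>
    intro hn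
    refine ⟨fun s => rotF (c 0) (W 0 ((s - t 0) / T 0)), ?_, ?_⟩
    · have h := (arc_SolOn (hT 0 hn) (hW 0 hn) (hc 0 hn) (t 0)).rot (hcn 0 hn)
      rw [ht 0]
      rw [ht0] at h ⊢
      exact h
    · intro j hj s _
      obtain rfl : j = 0 := by omega
      rfl
  | succ n ih =>
    intro hn
    obtain ⟨Y, hY, hYj⟩ := ih (by omega)
    have htmono : ∀ j ≤ n + 1, t j ≤ t (n + 1) := by
      intro j hj
      obtain ⟨k, hk⟩ := Nat.exists_eq_add_of_le hj
      have : ∀ i, j + i ≤ n + 1 → t j ≤ t (j + i) := by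
        intro i
        induction i with
        | zero => intro _; simp
        | succ i ihi =>
          intro hi
          have h1 := ihi (by omega)
          have h2 := ht (j + i)
          have h3 := hT (j + i) (by omega)
          have h4 : t (j + (i + 1)) = t (j + i + 1) := by rw [Nat.add_assoc]
          rw [h4, h2]
          linarith
      rw [hk]
      exact this k (by omega)
    have h0 : 0 ≤ t (n + 1) := by
      have := htmono 0 (by omega)
      rwa [ht0] at this
    set Z : ℝ → FS := fun s => rotF (c (n + 1)) (W (n + 1) ((s - t (n + 1)) / T (n + 1))) with hZ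
    have hZsol : SolOn m (t (n + 1)) (t (n + 1 + 1)) Z := by
      rw [ht (n + 1)]
      exact (arc_SolOn (hT _ hn) (hW _ hn) (hc _ hn) (t (n + 1))).rot (hcn _ hn)
    have hTn := hT (n + 1) hn
    have hTn' := hT n (by omega)
    have hlt : t (n + 1) ≤ t (n + 1 + 1) := by rw [ht (n + 1)]; linarith
    have hmatch : Z (t (n + 1)) = Y (t (n + 1)) := by
      rw [hYj n le_rfl (t (n + 1)) ⟨by rw [ht n]; linarith, le_rfl⟩]
      simp only [hZ]
      rw [sub_self, zero_div, hm n (by omega), rotF_mul, ← hcc n, ht n]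
      congr 2
      field_simp
      ring
    refine ⟨fun s => if s ≤ t (n + 1) then Y s else Z s, ?_, ?_⟩
    · refine SolOn.union h0 hlt (hY.congr ?_) (hZsol.congr ?_)
      · intro s hs
        simp only [hs.2, if_true]
      · intro s hs
        rcases hs.1.eq_or_lt with he | hl
        · simp only [← he, le_refl, if_true]
          exact hmatch.symm
        · simp only [not_le.mpr hl, if_false]
    · intro j hj s hs
      rcases Nat.lt_or_ge n j with hnj | hnj
      · obtain rfl : j = n + 1 := by omega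
        rcases hs.1.eq_or_lt with he | hl
        · simp only [← he, le_refl, if_true]
          rw [← hmatch]
        · simp only [not_le.mpr hl, if_false, hZ]
      · have hsle : s ≤ t (n + 1) := hs.2.trans (htmono (j + 1) (by omega))
        simp only [hsle, if_true]
        exact hYj j hnj s hs

/-- extension from one period to the whole line -/
theorem glue_inf (m : Fin 3 → ℝ) (L : ℝ) (hL : 0 < L) (Y : ℝ → FS) (hY : SolOn m 0 L Y) (U : ℂ)
    (hU : ‖U‖ = 1) (hm : Y L = rotF U (Y 0)) :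
    ∃ X : ℝ → FS, (∀ s ∈ Icc 0 L, X s = Y s) ∧ (∀ s, X (s + L) = rotF U (X s)) ∧
      ∀ s, FreeF (X s).1 ∧ (∑ i, (m i : ℂ) * (X s).1 i = 0) ∧ HasDerivAt X (NVF m (X s)) s := by
  have hU0 : U ≠ 0 := by
    rintro rfl
    simp at hU
  set G : ℤ → ℝ → FS := fun n s => rotF (U ^ n) (Y (s - n * L)) with hG
  set X : ℝ → FS := fun s => G ⌊s / L⌋ s with hX
  have hGsol : ∀ n : ℤ, SolOn m (n * L) ((n + 1) * L) (G n) := by
    intro n
    have h := (hY.shift (n * L)).rot (u := U ^ n) (by rw [norm_zpow, hU, one_zpow])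
    have e : L + n * L = (n + 1) * L := by ring
    rw [zero_add, e] at h
    exact h
  have hmatch : ∀ n : ℤ, G (n + 1) ((n + 1) * L) = G n ((n + 1) * L) := by
    intro n
    simp only [hG]
    have e1 : ((n : ℝ) + 1) * L - ((n + 1 : ℤ) : ℝ) * L = 0 := by push_cast; ring
    have e2 : ((n : ℝ) + 1) * L - (n : ℝ) * L = L := by ring
    rw [e1, e2, hm, rotF_mul, zpow_add_one₀ hU0]
  have hXG : ∀ n : ℤ, ∀ s ∈ Icc ((n : ℝ) * L) ((n + 1) * L), X s = G n s := by
    intro n s hs
    rcases hs.2.eq_or_lt with he | hl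
    · have hf : ⌊s / L⌋ = n + 1 := by
        rw [he]
        have : ((n : ℝ) + 1) * L / L = ((n + 1 : ℤ) : ℝ) := by
          push_cast
          field_simp
        rw [this, Int.floor_intCast]
      simp only [hX, hf]
      rw [he, hmatch n]
    · have hf : ⌊s / L⌋ = n := by
        rw [Int.floor_eq_iff]
        constructor
        · rw [le_div_iff₀ hL]; exact hs.1
        · rw [div_lt_iff₀ hL]; exact hl
      simp only [hX, hf]
  have hXsol : ∀ n : ℤ, SolOn m (n * L) ((n + 1) * L) X := fun n => (hGsol n).congr (hXG n)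
  refine ⟨X, ?_, ?_, ?_⟩
  · intro s hs
    have := hXG 0 s (by simpa using hs)
    rw [this]
    simp only [hG]
    simp [rotF_one]
  · intro s
    have h1 : ⌊(s + L) / L⌋ = ⌊s / L⌋ + 1 := by
      rw [add_div, div_self hL.ne', Int.floor_add_one]
    simp only [hX, hG, h1, rotF_mul]
    have h2 : s + L - ((⌊s / L⌋ + 1 : ℤ) : ℝ) * L = s - (⌊s / L⌋ : ℝ) * L := by push_cast; ring
    rw [h2, zpow_add_one₀ hU0, mul_comm]
  · intro s
    set n := ⌊s / L⌋ with hn
    have hn1 : (n : ℝ) * L ≤ s := by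
      have := Int.floor_le (s / L)
      rwa [le_div_iff₀ hL] at this
    have hn2 : s < (n + 1) * L := by
      have := Int.lt_floor_add_one (s / L)
      rwa [div_lt_iff₀ hL] at this
    have h1 := hXsol (n - 1)
    have h2 := hXsol n
    have e1 : ((n - 1 : ℤ) : ℝ) + 1 = (n : ℝ) := by push_cast; ring
    rw [e1] at h1
    have hab : ((n - 1 : ℤ) : ℝ) * L ≤ n * L := by
      push_cast
      nlinarith
    have hbc : (n : ℝ) * L ≤ (n + 1) * L := by nlinarith
    have h3 := SolOn.union hab hbc h1 h2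
    obtain ⟨f1, f2, f3⟩ := h3 s ⟨hab.trans hn1, hn2.le⟩
    refine ⟨f1, f2, f3.hasDerivAt (Icc_mem_nhds ?_ hn2)⟩
    push_cast
    nlinarith

theorem chain : ChainStmt := by
  intro m J T W u hJ hT hW hc hu hm hlast
  -- times and rotations
  set t : ℕ → ℝ := fun j => ∑ i ∈ Finset.range j, T i with htdef
  have ht0 : t 0 = 0 := by simp [htdef]
  have ht : ∀ j, t (j + 1) = t j + T j := fun j => by simp [htdef, Finset.sum_range_succ]
  -- make all `u` nonzero
  set u' : ℕ → ℂ := fun j => if j < J then u j else 1 with hu'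
  have hu'n : ∀ j, ‖u' j‖ = 1 := by
    intro j
    by_cases hj : j < J
    · simp only [hu', hj, if_true]; exact hu j hj
    · simp only [hu', hj, if_false]; simp
  have hu'0 : ∀ j, u' j ≠ 0 := by
    intro j h
    have := hu'n j
    rw [h] at this
    simp at this
  set c : ℕ → ℂ := fun j => ∏ i ∈ Finset.range j, (u' i)⁻¹ with hcdef
  have hc0 : c 0 = 1 := by simp [hcdef]
  have hcs : ∀ j, c (j + 1) = c j * (u' j)⁻¹ := fun j => Finset.prod_range_succ _ _
  have hcc : ∀ j, c j = c (j + 1) * u' j := fun j => by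
    rw [hcs j, mul_assoc, inv_mul_cancel₀ (hu'0 j), mul_one]
  have hcn : ∀ j, ‖c j‖ = 1 := by
    intro j
    simp only [hcdef, norm_prod, norm_inv, hu'n]
    simp
  have huu : ∀ j < J, u' j = u j := fun j hj => by simp only [hu', hj, if_true]
  obtain ⟨n, rfl⟩ : ∃ n, J = n + 1 := ⟨J - 1, by omega⟩
  obtain ⟨Y, hY, hYj⟩ := glue_fin m (n + 1) T W u' hT hW hc
    (fun j hj => by rw [huu j (by omega)]; exact hm j hj) t ht0 ht c hcc (fun j _ => hcn j) n
    (by omega)
  have htmono : ∀ i j, i ≤ j → j ≤ n + 1 → t i ≤ t j := by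
    intro i j hij
    induction j, hij using Nat.le_induction with
    | base => intro _; exact le_rfl
    | succ j _ ih =>
      intro hj
      have := ih (by omega)
      rw [ht j]
      have := hT j (by omega)
      linarith
  have hL : 0 < t (n + 1) := by
    have h1 := htmono 0 n (by omega) (by omega)
    rw [ht0] at h1
    rw [ht n]
    have := hT n (by omega)
    linarith
  have hYL : Y (t (n + 1)) = rotF (c (n + 1)) (Y 0) := by
    have hTn := hT n (by omega)
    have hT0 := hT 0 (by omega)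
    have h1 := hYj n le_rfl (t (n + 1)) ⟨by rw [ht n]; linarith, le_rfl⟩
    have h2 := hYj 0 (by omega) 0 ⟨by rw [ht0], by rw [ht 0, ht0]; linarith⟩
    rw [h1, h2, ht0, hc0, rotF_one]
    have e : (t (n + 1) - t n) / T n = 1 := by
      rw [ht n]
      field_simp
      ring
    have e2 : ((0 : ℝ) - 0) / T 0 = 0 := by simp
    rw [e, e2, hlast, rotF_mul]
    have e3 : n + 1 - 1 = n := rfl
    rw [e3, hcc n, huu n (by omega)]
  obtain ⟨X, hX1, hX2, hX3⟩ := glue_inf m (t (n + 1)) hL Y hY (c (n + 1)) (hcn _) hYL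
  refine ⟨fun s => (X s).1, fun s => (X s).2, ?_, t, ht0, fun j _ => ht j, c, fun j _ => hcn j,
    hc0, ?_, c (n + 1), hcn _, ?_⟩
  · refine ⟨fun s => ⟨(hX3 s).2.1, (hX3 s).1⟩, ?_, ?_⟩
    · intro s i
      have h := (ContinuousLinearMap.fst ℝ Conf Conf).hasFDerivAt.comp_hasDerivAt s (hX3 s).2.2
      exact hasDerivAt_pi.1 h i
    · intro s i
      have h := (ContinuousLinearMap.snd ℝ Conf Conf).hasFDerivAt.comp_hasDerivAt s (hX3 s).2.2
      exact hasDerivAt_pi.1 h i
  · intro j hj τ hτ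
    have hTj := hT j hj
    have hin : t j + T j * τ ∈ Icc (t j) (t (j + 1)) := by
      rw [ht j]
      constructor
      · nlinarith [hτ.1]
      · nlinarith [hτ.2]
    have hin2 : t j + T j * τ ∈ Icc 0 (t (n + 1)) := by
      constructor
      · have := htmono 0 j (by omega) (by omega)
        rw [ht0] at this
        exact this.trans hin.1
      · exact hin.2.trans (htmono (j + 1) (n + 1) (by omega) le_rfl)
    show X (t j + T j * τ) = _
    rw [hX1 _ hin2, hYj j (by omega) _ hin]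
    congr 2
    field_simp
    ring
  · intro s i
    have := hX2 s
    show (X (s + t (n + 1))).1 i = _
    rw [this]
    rfl

end

end Pool.Agent.HM.H87
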