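import Pool.Agent.Helper49_HM.Dyn

/-!
# Conservation of energy and angular momentum
-/

namespace Pool.Agent.HM.H87

open Complex Set Topology Pool.Agent.HM

noncomputable section

/-- derivative of the square of the norm -/
theorem hasDeriv_nsq {z : ℝ → ℂ} {w' : ℂ} {t : ℝ} {S : Set ℝ}
    (h : HasDerivWithinAt z w' S t) :
    HasDerivWithinAt (fun s => ‖z s‖ ^ 2) (2 * ((z t).re * w'.re + (z t).im * w'.im)) S t := by
  have h1 := h.norm_sq
  have e : inner ℝ (z t) w' = (z t).re * w'.re + (z t).im * w'.im := by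
    rw [Complex.inner]
    simp [Complex.mul_re]
    ring
  rw [e] at h1
  exact h1

/-- derivative of the inverse of the norm -/
theorem hasDeriv_ninv {z : ℝ → ℂ} {w' : ℂ} {t : ℝ} {S : Set ℝ}
    (h : HasDerivWithinAt z w' S t) (h0 : z t ≠ 0) (a : ℝ) :
    HasDerivWithinAt (fun s => a / ‖z s‖)
      (-(a * ((z t).re * w'.re + (z t).im * w'.im) / ‖z t‖ ^ 3)) S t := by
  have hp : 0 < ‖z t‖ := norm_pos_iff.2 h0
  have h1 := hasDeriv_nsq h
  have h2 : HasDerivWithinAt (fun s => ‖z s‖)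
      (((z t).re * w'.re + (z t).im * w'.im) / ‖z t‖) S t := by
    have h3 := h1.sqrt (by positivity)
    have e : (fun s => Real.sqrt (‖z s‖ ^ 2)) = fun s => ‖z s‖ := by
      ext s
      exact Real.sqrt_sq (norm_nonneg _)
    rw [e] at h3
    refine h3.congr_deriv ?_
    rw [Real.sqrt_sq hp.le]
    field_simp
  have h4 := (hasDerivWithinAt_const t S a).div h2 hp.ne'
  refine HasDerivWithinAt.congr_deriv (f := fun s => a / ‖z s‖) h4 ?_
  field_simp
  ring

theorem acc0 (m : Fin 3 → ℝ) (q : Conf) : acc m q 0 =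
    (m 1 : ℂ) * (q 1 - q 0) / ((‖q 1 - q 0‖ : ℂ) ^ 3) +
      (m 2 : ℂ) * (q 2 - q 0) / ((‖q 2 - q 0‖ : ℂ) ^ 3) := by
  unfold acc
  rw [show (Finset.univ.erase (0 : Fin 3)) = {1, 2} from by decide, Finset.sum_pair (by decide)]

theorem acc1 (m : Fin 3 → ℝ) (q : Conf) : acc m q 1 =
    (m 0 : ℂ) * (q 0 - q 1) / ((‖q 0 - q 1‖ : ℂ) ^ 3) +
      (m 2 : ℂ) * (q 2 - q 1) / ((‖q 2 - q 1‖ : ℂ) ^ 3) := by
  unfold acc
  rw [show (Finset.univ.erase (1 : Fin 3)) = {0, 2} from by decide, Finset.sum_pair (by decide)]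

theorem acc2 (m : Fin 3 → ℝ) (q : Conf) : acc m q 2 =
    (m 0 : ℂ) * (q 0 - q 2) / ((‖q 0 - q 2‖ : ℂ) ^ 3) +
      (m 1 : ℂ) * (q 1 - q 2) / ((‖q 1 - q 2‖ : ℂ) ^ 3) := by
  unfold acc
  rw [show (Finset.univ.erase (2 : Fin 3)) = {0, 1} from by decide, Finset.sum_pair (by decide)]

theorem divc_re (a : ℝ) (z : ℂ) (r : ℝ) : ((a : ℂ) * z / ((r : ℂ) ^ 3)).re = a * z.re / r ^ 3 := by
  have : (a : ℂ) * z / ((r : ℂ) ^ 3) = ((a / r ^ 3 : ℝ) : ℂ) * z := by
    push_cast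
    ring
  rw [this, Complex.re_ofReal_mul]
  ring

theorem divc_im (a : ℝ) (z : ℂ) (r : ℝ) : ((a : ℂ) * z / ((r : ℂ) ^ 3)).im = a * z.im / r ^ 3 := by
  have : (a : ℂ) * z / ((r : ℂ) ^ 3) = ((a / r ^ 3 : ℝ) : ℂ) * z := by
    push_cast
    ring
  rw [this, Complex.im_ofReal_mul]
  ring

theorem energy_deriv (m : Fin 3 → ℝ) (q v : ℝ → Conf) (h : IsSol m q v) (t : ℝ) :
    HasDerivAt (fun t => energy m (q t) (v t)) 0 t := by
  have hv := h.hv t
  have hq := h.hq t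
  have hne := (h.mem t).2
  have hs : ∀ i, HasDerivWithinAt (fun s => ‖v s i‖ ^ 2)
      (2 * ((v t i).re * (acc m (q t) i).re + (v t i).im * (acc m (q t) i).im)) univ t := fun i =>
    hasDeriv_nsq (hv i).hasDerivWithinAt
  have hd : ∀ i j, HasDerivWithinAt (fun s => q s i - q s j) (v t i - v t j) univ t := fun i j =>
    ((hq i).sub (hq j)).hasDerivWithinAt
  have hi : ∀ i j, i ≠ j → ∀ a : ℝ, HasDerivWithinAt (fun s => a / ‖q s i - q s j‖)
      (-(a * ((q t i - q t j).re * (v t i - v t j).re + (q t i - q t j).im * (v t i - v t j).im) /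
        ‖q t i - q t j‖ ^ 3)) univ t := fun i j hij a =>
    hasDeriv_ninv (hd i j) (sub_ne_zero.2 (hne i j hij)) a
  have h1 := ((((hs 0).const_mul (m 0)).add ((hs 1).const_mul (m 1))).add
    ((hs 2).const_mul (m 2))).div_const 2
  have h2 := ((hi 0 1 (by decide) (m 0 * m 1)).add (hi 0 2 (by decide) (m 0 * m 2))).add
    (hi 1 2 (by decide) (m 1 * m 2))
  have h3 := h1.sub h2
  rw [hasDerivWithinAt_univ] at h3
  have e : (fun t => energy m (q t) (v t)) = fun s =>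
      (m 0 * ‖v s 0‖ ^ 2 + m 1 * ‖v s 1‖ ^ 2 + m 2 * ‖v s 2‖ ^ 2) / 2 -
      (m 0 * m 1 / ‖q s 0 - q s 1‖ + m 0 * m 2 / ‖q s 0 - q s 2‖ + m 1 * m 2 / ‖q s 1 - q s 2‖) := by
    ext s
    simp only [energy, Fin.sum_univ_three]
  rw [e]
  refine HasDerivAt.congr_deriv h3 ?_
  have n1 : ‖q t 1 - q t 0‖ = ‖q t 0 - q t 1‖ := norm_sub_rev _ _
  have n2 : ‖q t 2 - q t 0‖ = ‖q t 0 - q t 2‖ := norm_sub_rev _ _
  have n3 : ‖q t 2 - q t 1‖ = ‖q t 1 - q t 2‖ := norm_sub_rev _ _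
  simp only [acc0, acc1, acc2, Complex.add_re, Complex.add_im, divc_re, divc_im, n1, n2, n3,
    Complex.sub_re, Complex.sub_im]
  ring

theorem angMom_deriv (m : Fin 3 → ℝ) (q v : ℝ → Conf) (h : IsSol m q v) (t : ℝ) :
    HasDerivAt (fun t => angMom m (q t) (v t)) 0 t := by
  have hv := h.hv t
  have hq := h.hq t
  have hre : ∀ {z : ℝ → ℂ} {w : ℂ}, HasDerivAt z w t → HasDerivAt (fun s => (z s).re) w.re t :=
    fun {z w} hz => Complex.reCLM.hasFDerivAt.comp_hasDerivAt t hz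
  have him : ∀ {z : ℝ → ℂ} {w : ℂ}, HasDerivAt z w t → HasDerivAt (fun s => (z s).im) w.im t :=
    fun {z w} hz => Complex.imCLM.hasFDerivAt.comp_hasDerivAt t hz
  have hs : ∀ i, HasDerivAt (fun s => m i * ((q s i).re * (v s i).im - (q s i).im * (v s i).re))
      (m i * (((v t i).re * (v t i).im + (q t i).re * (acc m (q t) i).im) -
        ((v t i).im * (v t i).re + (q t i).im * (acc m (q t) i).re))) t := fun i =>
    (((hre (hq i)).mul (him (hv i))).sub ((him (hq i)).mul (hre (hv i)))).const_mul (m i)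
  have h3 := ((hs 0).add (hs 1)).add (hs 2)
  have e : (fun t => angMom m (q t) (v t)) = fun s =>
      m 0 * ((q s 0).re * (v s 0).im - (q s 0).im * (v s 0).re) +
      m 1 * ((q s 1).re * (v s 1).im - (q s 1).im * (v s 1).re) +
      m 2 * ((q s 2).re * (v s 2).im - (q s 2).im * (v s 2).re) := by
    ext s
    simp only [angMom, Fin.sum_univ_three, Complex.mul_im, Complex.conj_re, Complex.conj_im]
    ring
  rw [e]
  refine HasDerivAt.congr_deriv h3 ?_
  have n1 : ‖q t 1 - q t 0‖ = ‖q t 0 - q t 1‖ := norm_sub_rev _ _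
  have n2 : ‖q t 2 - q t 0‖ = ‖q t 0 - q t 2‖ := norm_sub_rev _ _
  have n3 : ‖q t 2 - q t 1‖ = ‖q t 1 - q t 2‖ := norm_sub_rev _ _
  simp only [acc0, acc1, acc2, Complex.add_re, Complex.add_im, divc_re, divc_im, n1, n2, n3,
    Complex.sub_re, Complex.sub_im]
  ring

theorem cons : ConsStmt := by
  intro m q v h t
  constructor
  · exact is_const_of_deriv_eq_zero (fun s => (energy_deriv m q v h s).differentiableAt)
      (fun s => (energy_deriv m q v h s).deriv) t 0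
  · exact is_const_of_deriv_eq_zero (fun s => (angMom_deriv m q v h s).differentiableAt)
      (fun s => (angMom_deriv m q v h s).deriv) t 0

end

end Pool.Agent.HM.H87
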